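import Pool.Agent.Helper27.TRB.Goals2
import Pool.Agent.Helper45.RBC.HERR
import Pool.Agent.Helper57.HX.Hdm
import Pool.Agent.Helper8.HS.MOMV

/-!
# TRB: the data on the étale relation (TLNK)
-/

open Complex Metric Set Filter Topology MeasureTheory
open scoped ContDiff ComplexConjugate ComplexOrder Manifold Matrix MatrixOrder

namespace Pool.Agent.Helper45.TRB

open Pool.Agent.Helper95.Lin Pool.Agent.Helper16.Abund Pool.Agent.Helper92.Orb
  Pool.Agent.Helper10.SP Pool.Agent.Helper95.RK Pool.Agent.Helper57.HS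
  Pool.Agent.Helper15.HS Pool.Agent.Helper10.HS Pool.Agent.Helper15.GS Pool.Agent.Helper57.RBC
  Pool.Agent.Helper82.HB Pool.Agent.Helper57.HX Pool.Agent.Helper27.TRB

universe u v

/-- The difference of the weights is an invariant function. -/
theorem psi_inv (hPAR : S_PARH.{u, v}) (hKET : S_KETH.{u, v}) (hDET : S_DETI.{u})
    {n : ℕ} {G : Type u} {M : Type v} [Group G] [MulAction G M]
    [TopologicalSpace M] [T2Space M] [ConnectedSpace M] [ChartedSpace (Fin n → ℂ) M]
    [IsManifold 𝓘(ℂ, Fin n → ℂ) ω M] {om : M → Matrix (Fin n) (Fin n) ℂ}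
    (hD : DataH n G M om) (v : M → ℝ) (hv : CanMetric n M v)
    (hvi : ∀ (γ : G) (x : M), v (γ • x) * ‖jac n (fun y : M => γ • y) x‖ ^ 2 = v x)
    (T : Set (Cn n)) (E : Cn n → M) (hE : Par n E T)
    (hC : ∃ C ⊆ T, IsCompact C ∧ ∀ p : M, ∃ (γ : G), ∃ x ∈ C, γ • p = E x) :
    InvF T (RelT (G := G) T E) (fun x => lpot n v E x - ld (pm n om E) x) := by
  obtain ⟨hK, -⟩ := hKET hD T E hE hC
  obtain ⟨d1, d2, -, -, d5, -⟩ := hDET T _ _ hK
  have hls : ContDiffOn ℝ ∞ (lpot n v E) T := hv.2 T E hE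
  have hlds : ContDiffOn ℝ ∞ (ld (pm n om E)) T := d2.log fun x hx => (d1 x hx).2.1.ne'
  refine ⟨hls.sub hlds, ?_⟩
  intro γ x y hxy
  obtain ⟨hx, hy, he⟩ := hxy
  obtain ⟨τ, U, W, hU, hW, hxU, hxW, hUT, hWT, hτ, -, hm, hτx, hdet, hiff⟩ :=
    (hPAR hD).2.2.1 T T E E hE hE γ x hx y hy he
  have hej : ∀ z ∈ U, γ • E z = E (τ z) := fun z hz => (hiff z hz (τ z) (hm hz)).2 rfl
  have hj := Pool.Agent.Helper69.HS.jac_tau hPAR hD hE hE hU hUT hτ
    (fun z hz => hWT (hm hz)) hdet hej hxU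
  rw [hτx] at hj
  have hA : Arr (RelT (G := G) T E) U τ :=
    ⟨hU, hτ, γ, fun z hz => ⟨hUT hz, hWT (hm hz), hej z hz⟩⟩
  have hdd := (d5 U τ hA x hxU).1
  rw [hτx] at hdd
  have hvx := hvi γ (E x)
  rw [he] at hvx
  set D : ℝ := ‖(fderiv ℂ τ x).det‖ ^ 2 with hDdef
  have hD0 : 0 < D := by
    have := norm_pos_iff.2 (hdet x hxU)
    positivity
  have hjn : ‖jac n (fun z : M => γ • z) (E x)‖ ^ 2 * ‖jac n E x‖ ^ 2 = ‖jac n E y‖ ^ 2 * D := by
    rw [hDdef, ← mul_pow, ← mul_pow, ← norm_mul, ← norm_mul, hj]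
  have e1 : v (E x) * ‖jac n E x‖ ^ 2 = v (E y) * ‖jac n E y‖ ^ 2 * D := by
    rw [← hvx, mul_assoc, hjn]
    ring
  have p1 : 0 < v (E y) * ‖jac n E y‖ ^ 2 := by
    have h1 := hv.1 (E y)
    have h2 := norm_pos_iff.2 (hE.2 y hy)
    positivity
  have p2 := (d1 y hy).2.1
  show Real.log (v (E y) * ‖jac n E y‖ ^ 2) - Real.log (pm n om E y).det.re =
    Real.log (v (E x) * ‖jac n E x‖ ^ 2) - Real.log (pm n om E x).det.re
  rw [e1, hdd, Real.log_mul p1.ne' hD0.ne', Real.log_mul p2.ne' hD0.ne']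
  ring

/-- A positive multiple of an invariant Kähler metric. -/
theorem ket_smul (hWIRT : S_WIRT) {n : ℕ} {T : Set (Cn n)} {G : Type u} [Group G]
    {R : G → Cn n → Cn n → Prop} {H : Cn n → Matrix (Fin n) (Fin n) ℂ} (hH : KEt T R H)
    {C : ℝ} (hC : 0 < C) : KEt T R (fun x => (C : ℂ) • H x) := by
  have hC' : (0 : ℂ) < (C : ℂ) := by exact_mod_cast hC
  refine ⟨hH.et, fun x hx => (hH.posDef x hx).smul hC', fun i j => ?_, ?_, ?_⟩
  · have : (fun x => ((C : ℂ) • H x) i j) = fun x => (C : ℂ) * H x i j := by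
      funext x; rw [Matrix.smul_apply, smul_eq_mul]
    rw [this]
    exact contDiffOn_const.mul (hH.smooth i j)
  · intro x hx i j l
    have h1 : ∀ a b : Fin n, (fun y => ((C : ℂ) • H y) a b) = fun y => (C : ℂ) * H y a b := by
      intro a b; funext y; rw [Matrix.smul_apply, smul_eq_mul]
    have h2 : ∀ a b c : Fin n, cd c (fun y => (C : ℂ) * H y a b) x =
        (C : ℂ) * cd c (fun y => H y a b) x := by
      intro a b c
      have h3 := ((hWIRT T hH.et.isOpen (fun _ => (C : ℂ)) (fun y => H y a b)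
        contDiffOn_const (hH.smooth a b)).2.2.1 c x hx).1
      rw [h3]
      have h4 : cd c (fun _ : Cn n => (C : ℂ)) x = 0 := by simp [cd]
      rw [h4]
      ring
    rw [h1, h1, h2, h2, hH.closed x hx i j l]
  · intro U τ hA x hx a b
    have h1 : ∀ (B : Matrix (Fin n) (Fin n) ℂ) (p q : Fin n → ℂ),
        hermi ((C : ℂ) • B) p q = (C : ℂ) * hermi B p q := by
      intro B p q
      unfold hermi
      simp only [Matrix.smul_apply, smul_eq_mul, Finset.mul_sum]
      refine Finset.sum_congr rfl fun i _ => Finset.sum_congr rfl fun j _ => by ring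
    rw [h1, h1, hH.inv U τ hA x hx a b]

/-- `rho` of a multiple. -/
theorem rho_smul (hWIRT : S_WIRT) {n : ℕ} {T : Set (Cn n)} {G : Type u} [Group G]
    {R : G → Cn n → Cn n → Prop} {H : Cn n → Matrix (Fin n) (Fin n) ℂ} (hH : KEt T R H)
    (hDET : S_DETI.{u}) {C : ℝ} (hC : 0 < C) {x : Cn n} (hx : x ∈ T) :
    rho (fun x => (C : ℂ) • H x) x = rho H x := by
  obtain ⟨d1, d2, -⟩ := hDET T R H hH
  have hlds : ContDiffOn ℝ ∞ (ld H) T := d2.log fun x hx => (d1 x hx).2.1.ne'
  have h1 : ld (fun x => (C : ℂ) • H x) =ᶠ[𝓝 x] fun y => ld H y - (-(n * Real.log C)) := by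
    filter_upwards [hH.et.isOpen.mem_nhds hx] with y hy
    unfold ld
    have h2 : ((C : ℂ) • H y).det.re = C ^ n * (H y).det.re := by
      rw [Matrix.det_smul, Fintype.card_fin, ← Complex.ofReal_pow, Complex.re_ofReal_mul]
    rw [h2, Real.log_mul (pow_pos hC n).ne' (d1 y hy).2.1.ne', Real.log_pow]
    ring
  unfold rho
  rw [Pool.Agent.Helper56.HS.LM_congr h1]
  exact Pool.Agent.Helper56.HS.LM_sub_const hWIRT hH.et.isOpen hlds _ hx

/-- The bound of the real bisectional curvature in matrix form. -/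
theorem trb_of {n : ℕ} {M : Type v} [TopologicalSpace M] [ChartedSpace (Fin n → ℂ) M]
    {q : M → Matrix (Fin n) (Fin n) ℂ} {v : M → ℝ} {c : ℝ} (h : BndRBC n M q v c)
    {T : Set (Cn n)} {E : Cn n → M} (hE : Par n E T) :
    TRBC (pm n q E) (fun x => (c : ℂ) • LM (lpot n v E) x) T := by
  intro x hx K hK
  obtain ⟨B, hB⟩ : ∃ B : Matrix (Fin n) (Fin n) ℂ, K = Bᴴ * B := by
    exact CStarAlgebra.nonneg_iff_eq_star_mul_self.mp hK.nonneg
  subst hB
  have h1 := h T E hE x hx n (fun a => B a)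
  refine le_of_eq_of_le (congrArg Complex.re ?_) (h1.trans_eq ?_)
  · unfold crvP
    simp only [Matrix.mul_apply, Matrix.conjTranspose_apply, Finset.sum_mul, Finset.mul_sum]
    have hsw : ∀ f : Fin n → Fin n → Fin n → Fin n → Fin n → Fin n → ℂ,
        (∑ i, ∑ j, ∑ k, ∑ l, ∑ b, ∑ a, f i j k l a b) =
        ∑ a, ∑ b, ∑ i, ∑ j, ∑ k, ∑ l, f i j k l a b := by
      intro f
      calc (∑ i, ∑ j, ∑ k, ∑ l, ∑ b, ∑ a, f i j k l a b)
          = ∑ i, ∑ j, ∑ k, ∑ l, ∑ a, ∑ b, f i j k l a b := by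
            refine Finset.sum_congr rfl fun i _ => Finset.sum_congr rfl fun j _ =>
              Finset.sum_congr rfl fun k _ => Finset.sum_congr rfl fun l _ => Finset.sum_comm
        _ = ∑ i, ∑ j, ∑ k, ∑ a, ∑ l, ∑ b, f i j k l a b := by
            refine Finset.sum_congr rfl fun i _ => Finset.sum_congr rfl fun j _ =>
              Finset.sum_congr rfl fun k _ => Finset.sum_comm
        _ = ∑ i, ∑ j, ∑ a, ∑ k, ∑ l, ∑ b, f i j k l a b := by
            refine Finset.sum_congr rfl fun i _ => Finset.sum_congr rfl fun j _ => Finset.sum_comm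
        _ = ∑ i, ∑ a, ∑ j, ∑ k, ∑ l, ∑ b, f i j k l a b := by
            refine Finset.sum_congr rfl fun i _ => Finset.sum_comm
        _ = ∑ a, ∑ i, ∑ j, ∑ k, ∑ l, ∑ b, f i j k l a b := Finset.sum_comm
        _ = ∑ a, ∑ i, ∑ j, ∑ k, ∑ b, ∑ l, f i j k l a b := by
            refine Finset.sum_congr rfl fun a _ => Finset.sum_congr rfl fun i _ =>
              Finset.sum_congr rfl fun j _ => Finset.sum_congr rfl fun k _ => Finset.sum_comm
        _ = ∑ a, ∑ i, ∑ j, ∑ b, ∑ k, ∑ l, f i j k l a b := by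
            refine Finset.sum_congr rfl fun a _ => Finset.sum_congr rfl fun i _ =>
              Finset.sum_congr rfl fun j _ => Finset.sum_comm
        _ = ∑ a, ∑ i, ∑ b, ∑ j, ∑ k, ∑ l, f i j k l a b := by
            refine Finset.sum_congr rfl fun a _ => Finset.sum_congr rfl fun i _ =>
              Finset.sum_comm
        _ = ∑ a, ∑ b, ∑ i, ∑ j, ∑ k, ∑ l, f i j k l a b := by
            refine Finset.sum_congr rfl fun a _ => Finset.sum_comm
    rw [hsw]
    refine Finset.sum_congr rfl fun a _ => Finset.sum_congr rfl fun b _ =>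
      Finset.sum_congr rfl fun i _ => Finset.sum_congr rfl fun j _ =>
      Finset.sum_congr rfl fun k _ => Finset.sum_congr rfl fun l _ => ?_
    simp only [Complex.star_def]
    ring
  · -- the trace term
    set L := LM (lpot n v E) x with hL
    set N := pm n q E x with hN
    have hbc : ∀ (A : Matrix (Fin n) (Fin n) ℂ) (a b : Fin n),
        hermi A (B a) (B b) = (B * A * Bᴴ) a b := by
      intro A a b
      unfold hermi
      rw [Matrix.mul_apply]
      simp only [Matrix.mul_apply, Matrix.conjTranspose_apply, Complex.star_def, Finset.sum_mul]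
      rw [Finset.sum_comm]
      refine Finset.sum_congr rfl fun j _ => Finset.sum_congr rfl fun i _ => by ring
    have h2 : (∑ a, ∑ b, hermi L (B a) (B b) * hermi N (B b) (B a)) =
        Matrix.trace ((B * L * Bᴴ) * (B * N * Bᴴ)) := by
      unfold Matrix.trace
      simp only [Matrix.diag_apply, Matrix.mul_apply (M := B * L * Bᴴ), hbc]
    have h3 : Matrix.trace ((B * L * Bᴴ) * (B * N * Bᴴ)) =
        Matrix.trace (L * (Bᴴ * B) * N * (Bᴴ * B)) := by
      calc Matrix.trace ((B * L * Bᴴ) * (B * N * Bᴴ))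
          = Matrix.trace (B * (L * (Bᴴ * B) * N * Bᴴ)) := by
            simp only [Matrix.mul_assoc]
        _ = Matrix.trace ((L * (Bᴴ * B) * N * Bᴴ) * B) := Matrix.trace_mul_comm _ _
        _ = _ := by simp only [Matrix.mul_assoc]
    rw [h2, h3, Matrix.smul_mul, Matrix.smul_mul, Matrix.smul_mul, Matrix.trace_smul,
      smul_eq_mul, Complex.re_ofReal_mul]

theorem tlnk (hPAR : S_PARH.{u, v}) (hKET : S_KETH.{u, v}) (hDET : S_DETI.{u}) (hLMF : S_LMF)
    (hWIRT : S_WIRT) (hHERM : S_HERM.{u, v}) (hRHOI : S_RHOI.{u}) (hRHB : S_RHB.{u}) :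
    S_TLNK.{u, v} := by
  intro n G M _ _ _ _ _ _ _ om q hn hD hq hqi v hv hvi c hc hsem hb T E hE hC
  obtain ⟨hK, -⟩ := hKET hD T E hE hC
  have hTo : IsOpen T := hE.1.1
  have hher : HerT T (RelT (G := G) T E) (pm n q E) := (hHERM hD hq hqi T E hE hC).1
  have hpsi := psi_inv hPAR hKET hDET hD v hv hvi T E hE hC
  have hls : ContDiffOn ℝ ∞ (lpot n v E) T := hv.2 T E hE
  obtain ⟨d1, d2, -⟩ := hDET T _ _ hK
  have hlds : ContDiffOn ℝ ∞ (ld (pm n om E)) T := d2.log fun x hx => (d1 x hx).2.1.ne'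
  obtain ⟨l1, l2, l3, l4⟩ := hLMF T hTo (lpot n v E) hls
  have hherK : HerT T (RelT (G := G) T E) (pm n om E) := ⟨hK.posDef, hK.smooth, hK.inv⟩
  obtain ⟨r1, r2, r3, r4, r5⟩ := hRHOI T (RelT (G := G) T E) (pm n om E) hK.et hherK
  obtain ⟨r6, r7⟩ := r4 _ hpsi
  have hL : ∀ x ∈ T, LM (lpot n v E) x = rho (pm n om E) x +
      LM (fun y => lpot n v E y - ld (pm n om E) y) x := by
    intro x hx
    have h1 : LM (fun y => ld (pm n om E) y + (lpot n v E y - ld (pm n om E) y)) x =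
        LM (ld (pm n om E)) x + LM (fun y => lpot n v E y - ld (pm n om E) y) x :=
      Pool.Agent.Helper56.HS.LM_add hWIRT hTo hlds (hls.sub hlds) hx
    show _ = LM (ld (pm n om E)) x + LM (fun y => lpot n v E y - ld (pm n om E) y) x
    rw [← h1]
    congr 1
    funext y
    ring
  have hadd : ∀ (A B : Matrix (Fin n) (Fin n) ℂ) (p q : Fin n → ℂ),
      hermi (A + B) p q = hermi A p q + hermi B p q := by
    intro A B p q
    unfold hermi
    simp only [Matrix.add_apply, add_mul, Finset.sum_add_distrib]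
  have hsmul : ∀ (t : ℂ) (B : Matrix (Fin n) (Fin n) ℂ) (p q : Fin n → ℂ),
      hermi (t • B) p q = t * hermi B p q := by
    intro t B p q
    unfold hermi
    simp only [Matrix.smul_apply, smul_eq_mul, Finset.mul_sum]
    refine Finset.sum_congr rfl fun i _ => Finset.sum_congr rfl fun j _ => by ring
  -- invariance of the form
  have hinvY : InvH (RelT (G := G) T E) fun x => (2 : ℂ) • ((c : ℂ) • LM (lpot n v E) x) := by
    intro U τ hA x hx a b
    obtain ⟨hU, hτ, γ, hγ⟩ := hA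
    have hxT := (hγ x hx).1
    have hτT := (hγ x hx).2.1
    have hA' : Arr (RelT (G := G) T E) U τ := ⟨hU, hτ, γ, hγ⟩
    show hermi ((2 : ℂ) • ((c : ℂ) • LM (lpot n v E) (τ x))) _ _ =
      hermi ((2 : ℂ) • ((c : ℂ) • LM (lpot n v E) x)) _ _
    rw [hsmul, hsmul, hsmul, hsmul, hL _ hτT, hL _ hxT, hadd, hadd, r2 U τ hA' x hx a b,
      r7 U τ hA' x hx a b]
  have hsmulH : ∀ (t : ℝ) (B : Matrix (Fin n) (Fin n) ℂ), B.IsHermitian →
      ((t : ℂ) • B).IsHermitian := by
    intro t B hB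
    unfold Matrix.IsHermitian
    rw [Matrix.conjTranspose_smul, hB.eq]
    simp
  obtain ⟨K, hK0, hKle⟩ := hRHB T (RelT (G := G) T E) (pm n om E) hK.et hherK
    (fun x => (2 : ℂ) • ((c : ℂ) • LM (lpot n v E) x))
    (fun x hx => by
      have := hsmulH 2 _ (hsmulH c _ (l2 x hx))
      simpa using this)
    (fun i j => by
      have h1 : (fun x => ((2 : ℂ) • ((c : ℂ) • LM (lpot n v E) x)) i j) =
          fun x => (2 : ℂ) * ((c : ℂ) * LM (lpot n v E) x i j) := by
        funext x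
        simp [Matrix.smul_apply]
      rw [h1]
      exact continuousOn_const.mul (continuousOn_const.mul (l1 i j).continuousOn)) hinvY
  refine ⟨K, hK0, ⟨ket_smul hWIRT hK hK0, hher, hc, ?_, ?_, ?_, ?_, ?_⟩⟩
  · refine ⟨contDiffOn_const.mul hpsi.1, fun γ x y hxy => ?_⟩
    exact congrArg (fun t : ℝ => c * t) (hpsi.2 γ x y hxy)
  · intro x hx
    rw [rho_smul hWIRT hK hDET hK0 hx, Pool.Agent.Helper8.HS.LM_smul hWIRT hTo
      (hls.sub hlds) c hx, hL x hx, smul_add]
  · intro x hx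
    have h1 : (LM (lpot n v E) x).PosSemidef := by
      refine Matrix.PosSemidef.of_dotProduct_mulVec_nonneg (l2 x hx) fun w => ?_
      have h2 := l3 x hx (star w)
      have h3 : hermi (LM (lpot n v E) x) (star w) (star w) =
          star w ⬝ᵥ (LM (lpot n v E) x *ᵥ w) := by
        unfold hermi dotProduct Matrix.mulVec dotProduct
        refine Finset.sum_congr rfl fun i _ => ?_
        rw [Finset.mul_sum]
        refine Finset.sum_congr rfl fun j _ => ?_
        simp only [Pi.star_apply, Complex.star_def, Complex.conj_conj]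
        ring
      rw [← h3, ← h2]
      exact_mod_cast hsem T E hE x hx (star w)
    have hc' : (0 : ℂ) ≤ (c : ℂ) := by exact_mod_cast hc.le
    exact h1.smul hc'
  · intro x hx
    exact (hKle x hx).2
  · exact trb_of hb hE

end Pool.Agent.Helper45.TRB
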