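import Pool.Agent.Helper27.TRB.Goals2
import Pool.Agent.Helper45.RBC.AsmM

/-! # TRB: assembly of the main theorem from its parts -/

open Complex Metric Set Filter Topology MeasureTheory
open scoped ContDiff ComplexConjugate ComplexOrder Manifold Matrix

namespace Pool.Agent.Helper45.TRB

open Pool.Agent.Helper95.Lin Pool.Agent.Helper16.Abund Pool.Agent.Helper92.Orb
  Pool.Agent.Helper10.SP Pool.Agent.Helper95.RK Pool.Agent.Helper57.HS
  Pool.Agent.Helper15.HS Pool.Agent.Helper10.HS Pool.Agent.Helper15.GS Pool.Agent.Helper57.RBC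
  Pool.Agent.Helper10.RBC Pool.Agent.Helper15.RK Pool.Agent.Helper10.RK Pool.Agent.Helper15.RBC
  Pool.Agent.Helper82.HB Pool.Agent.Helper57.HX Pool.Agent.Helper27.TRB

universe u v

theorem maint (hUNI : S_UNIH.{u, v}) (hTLNK : S_TLNK.{u, v}) (hTOUT : Pool.Agent.Helper27.TRB.S_TOUT.{u})
    (hMAINP : S_MAINP.{u, v}) : S_MAINT.{u, v} := by
  intro n G M _ _ _ _ _ _ _ om q hD hq hqi v hv hvi c hc hsem hb
  rcases Nat.eq_zero_or_pos n with hn | hn
  · subst hn
    exact orb_zero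
  obtain ⟨T, E, hE, hC⟩ := hUNI hn hD
  obtain ⟨C, -, hT⟩ := hTLNK hn hD hq hqi v hv hvi c hc hsem hb T E hE hC
  obtain ⟨P, ψ', hH⟩ := hTOUT hn T _ _ _ _ _ _ hT
  exact hMAINP hn hD T E hE hC _ _ _ _ hH

end Pool.Agent.Helper45.TRB
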