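import Pool.Agent.Helper27.TRB.Glg
import Pool.Agent.Helper27.TRB.Lim
import Pool.Agent.Helper27.TRB.Seq
import Pool.Agent.Helper27.TRB.Vfun
import Pool.Agent.Helper27.TRB.Vol
import Pool.Agent.Helper27.TRB.Cor
import Pool.Agent.Helper27.TRB.Out
import Pool.Agent.Helper20.TRB.TCLO
import Pool.Agent.Helper20.TRB.TLP
import Pool.Agent.Helper20.TRB.TNUL
import Pool.Agent.Helper40.TRB.TB3
import Pool.Agent.Helper40.TRB.TNK
import Pool.Agent.Helper40.TRB.TAVL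
import Pool.Agent.Helper10.TRB.MAINP
import Pool.Agent.Helper45.TRB.TLNK
import Pool.Agent.Helper45.TRB.MAINT
import Pool.Agent.Helper45.HB.Main

/-! # TRB: the main theorem -/

open Complex Metric Set Filter Topology MeasureTheory
open scoped ContDiff ComplexConjugate ComplexOrder Manifold Matrix

namespace Pool.Agent.Helper45.TRB.Asm

open Pool.Agent.Helper95.Lin Pool.Agent.Helper16.Abund Pool.Agent.Helper92.Orb
  Pool.Agent.Helper10.SP Pool.Agent.Helper95.RK Pool.Agent.Helper57.HS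
  Pool.Agent.Helper15.HS Pool.Agent.Helper10.HS Pool.Agent.Helper15.RK
  Pool.Agent.Helper10.SP.Asm Pool.Agent.Helper15.HS.Asm Pool.Agent.Helper15.GS
  Pool.Agent.Helper15.GS.Asm Pool.Agent.Helper57.RBC Pool.Agent.Helper15.RBC
  Pool.Agent.Helper10.RBC Pool.Agent.Helper45.RBC Pool.Agent.Helper57.RBC.Asm
  Pool.Agent.Helper10.RK.Asm Pool.Agent.Helper45.RBC.Asm Pool.Agent.Helper57.HX
  Pool.Agent.Helper57.HX.Asm Pool.Agent.Helper82.HB Pool.Agent.Helper45.HB.Asm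
  Pool.Agent.Helper27.TRB

universe u v

theorem t_TFAM : S_TFAM.{u} := tfam t_WIRT t_RHOI
theorem t_TEX : S_TEX.{u} := tex t_AYG t_WIRT t_RHOI
theorem t_TMON : S_TMON.{u} := tmon t_MAXF t_TRI t_CL
theorem t_TSEQ : S_TSEQ.{u} := tseq t_MAXF t_TRI t_CMP t_TEX t_TMON t_TFAM t_RFAM
theorem t_TVD : S_TVD.{u} := tvd t_WIRT t_DETI t_INVK t_TRI t_KETP t_CL t_TMON
theorem t_TVC : S_TVC.{u} := tvc t_RHOI t_MAXF (t_RWT t_AYG) t_TVD t_RLG t_RVZ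
theorem t_TCH : S_TCH.{u} := tch t_WIRT t_RHOI t_DETI t_TRI t_KETP t_NULL0
theorem t_TLC : S_TLC.{u} :=
  tlc t_RHOI t_TSEQ t_TVC (t_RWT t_AYG) t_TVD t_TCH t_RAC t_DBB t_CMPG t_INVK t_LIMG t_LOWQ
theorem t_TGLG : S_TGLG.{u} := tglg t_MCAL t_CL t_CLG t_CHN t_AAPS t_TRI
theorem t_TAVL : S_TAVL.{u} := Pool.Agent.Helper40.TRB.tavl t_NULL0 t_DETI
theorem t_TNK : S_TNK.{u} := Pool.Agent.Helper40.TRB.tnk t_CMPG t_RLV t_TAVL t_RDL t_TRC t_NULL0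
theorem t_TLNK : S_TLNK.{u, v} :=
  Pool.Agent.Helper45.TRB.tlnk t_PARH t_KETH t_DETI t_LMF t_WIRT t_HERM t_RHOI t_RHB
theorem t_MAINP : S_MAINP.{u, v} :=
  Pool.Agent.Helper10.TRB.mainp t_HOUT t_PUSHQ t_PUSHV t_RKM t_GAL t_LMF t_DETI
    t_FOLZ t_FLD t_FLF t_FLTM t_FRONT tH_MAINRK

theorem t_TCLO : S_TCLO.{u} :=
  Pool.Agent.Helper20.TRB.tclo t_MCAL t_WIRT t_CSY t_PARP t_PUE t_DETI
    Pool.Agent.Helper15.RK.Asm.t_ST2A Pool.Agent.Helper15.RK.Asm.t_POSK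
theorem t_TVOL : S_TVOL.{u} := tvol t_WIRT t_RHOI t_MOMG t_CMPG
theorem t_TCOR_of (hTLP : S_TLP.{u}) (hTNUL : S_TNUL) : S_TCOR.{u} :=
  tcor t_AYG t_WIRT t_PUE (t_VOLP t_MOMG) t_TFAM t_TLC hTLP t_CHP hTNUL t_TCLO t_TNK t_TVOL
    t_KAPI t_RHOI
theorem t_TOUT_of (hTLP : S_TLP.{u}) (hTNUL : S_TNUL) (hTB3 : S_TB3.{u}) :
    Pool.Agent.Helper27.TRB.S_TOUT.{u} := tout t_CSY (t_TCOR_of hTLP hTNUL) hTB3
theorem t_MAINT_of (hTLP : S_TLP.{u}) (hTNUL : S_TNUL) (hTB3 : S_TB3.{u}) :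
    S_MAINT.{u, v} :=
  Pool.Agent.Helper45.TRB.maint t_UNIH t_TLNK (t_TOUT_of hTLP hTNUL hTB3) t_MAINP

theorem t_TLP : S_TLP.{u} := Pool.Agent.Helper20.TRB.tlp t_INVK t_MCAL t_ARRB t_RHOI
theorem t_TNUL : S_TNUL := Pool.Agent.Helper20.TRB.tnul t_WIRT t_MCAL t_CSY t_PARP
theorem t_TB3 : S_TB3.{u} :=
  Pool.Agent.Helper40.TRB.tb3 t_AYG t_WIRT t_RHOI t_MOMG t_NULL0 t_TRC t_RHB t_PUE t_CMPG
    (t_SBG t_AYG) t_DENS t_TGLG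

/-- The main theorem T. -/
theorem t_MAINT : S_MAINT.{u, v} := t_MAINT_of t_TLP t_TNUL t_TB3

end Pool.Agent.Helper45.TRB.Asm
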